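import Pool.Agent.H85.BM.Main

/-!
# MP_ed3816_nt: K3 surfaces of degree 8 with empty Brauer-Manin set over all extensions of odd degree

Let `K` be a number field, `a = c² + 4k` with `c, k ∈ O_K` and `|N(a)| ≡ 5` modulo 8, let `e ∈ O_K` be coprime
to `a`, and let `G` be ANY quadratic form over `O_K` in the six variables `u, v, x₁, y₁, x₂, y₂`.  Let `X` be
the intersection of the three quadrics

  `u v = x₁² - a y₁²`,  `(u + v)(u + 2v) = x₂² - a y₂²`,  `e (x₁² - x₂²) = a G(u, v, x₁, y₁, x₂, y₂)`

in `P⁵`.  (So the third quadric is any one that is congruent to `e (x₁² - x₂²)` modulo `a`.)  If `X` is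
smooth, it is a K3 surface, and by the first two equations the quaternion algebra `(a, u/(u+v))`, which is
equivalent to `(a, v/(u+v))`, `(a, u/(u+2v))`, `(a, v/(u+2v))`, is unramified on `X`.

Let `L` be any number field of odd degree over `K`.  We prove that for every family of points
`P_w ∈ X(L_w)` the value of the algebra at `P_w` is nontrivial at an odd number of finite places `w`, and it
is trivial at all real points.  So the sum of the invariants is `1/2` for all adelic points of `X` over
`L`, for all `G`: the set `X(A_L)^Br` is empty.  In particular `X(L)` is empty (by the reciprocity law), and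
`X(L)` is dense in `X(A_L)^Br`, for all `L` of odd degree over `K`.

Proof.  Let `w` be a finite place of `L`.  If `w(a)` is even, then `a` is a square in `L_w` or the
extension `L_w(√a)` is unramified (note that `a ≡ c²` modulo 4), so the norms are the elements of even
valuation, and `u v` and `(u + v)(u + 2v)` have even valuation.  As `(u + 2v) - (u + v) = v`, all the products
of one of `u, v` and one of `u + v, u + 2v` have even valuation.  If `w(a)` is odd (so `w` is odd), we
normalise such that the minimum of the valuations of `u, v, x₁, x₂` is zero.  Then `a y_i²` is divisible by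
`w`, and so is `a G`.  So `u v ≡ x₁² ≡ x₂² ≡ (u + v)(u + 2v)`, thus `(u + v)² ≡ -v²`.  So `-1` is a square in the
residue field with `q` elements, and `v (u + v) = ι v²` with `ι² ≡ -1`.  So the algebra is trivial at the point
if and only if `ι` is a square in the residue field, i.e. if `q ≡ 1` modulo 8, and it is nontrivial if
`q ≡ 5` modulo 8.  The norm of `a` from `L` is `≡ 5` modulo 8, and it is the product of the `q_w ^ w(a)`.
So the number of `w` with `w(a)` odd and `q_w ≡ 5` modulo 8 is odd.
-/

set_option autoImplicit false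

open NumberField IsDedekindDomain MvPolynomial

namespace Pool.Agent.Results.MP_ed3816_nt.BrauerManinEmpty

/-- The three quadratic forms in the variables `u, v, x₁, y₁, x₂, y₂`. -/
noncomputable def surface {R : Type} [CommRing R] (a e : R) (G : MvPolynomial (Fin 6) R) :
    Fin 3 → MvPolynomial (Fin 6) R :=
  ![X 0 * X 1 - (X 2 ^ 2 - C a * X 3 ^ 2),
    (X 0 + X 1) * (X 0 + 2 * X 1) - (X 4 ^ 2 - C a * X 5 ^ 2),
    C e * (X 2 ^ 2 - X 4 ^ 2) - C a * G]

/-- `P` represents a point over the field `F` of the surface defined by the forms `Q`, whose coefficients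
are mapped to `F` by `φ`. -/
def IsPoint {R F : Type} [CommRing R] [Field F] (φ : R →+* F) (Q : Fin 3 → MvPolynomial (Fin 6) R)
    (P : Fin 6 → F) : Prop :=
  P ≠ 0 ∧ ∀ j, eval₂ φ P (Q j) = 0

/-- The quaternion algebra `(a, b)` over the field `F` is split (for `a, b ≠ 0`): `b` is a norm. -/
def IsNorm {F : Type} [Field F] (a b : F) : Prop := ∃ s t : F, s ^ 2 - a * t ^ 2 = b

/-- The numerators `u` and `v`. -/
def Num {F : Type} [Field F] (P : Fin 6 → F) (n : F) : Prop := n = P 0 ∨ n = P 1

/-- The denominators `u + v` and `u + 2v`. -/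
def Den {F : Type} [Field F] (P : Fin 6 → F) (m : F) : Prop :=
  m = P 0 + P 1 ∨ m = P 0 + 2 * P 1

/-- The value at `P` of the algebra `(a, n/m)`, where `n` is `u` or `v` and `m` is `u + v` or `u + 2v`, is
trivial. -/
def Trivial {F : Type} [Field F] (a : F) (P : Fin 6 → F) : Prop :=
  ∀ n m, Num P n → Den P m → n * m ≠ 0 → IsNorm a (n * m)

/-- The map from `O_K` to the completion `L_w`. -/
noncomputable def toCompletion (K L : Type) [Field K] [Field L] [NumberField L] [Algebra K L]
    (w : HeightOneSpectrum (𝓞 L)) : 𝓞 K →+* w.adicCompletion L :=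
  (algebraMap L (w.adicCompletion L)).comp (algebraMap (𝓞 K) L)

/-- The value of the algebra at a point is well defined: it does not depend on `n` and `m`, and if all the
products `n m` are zero then `a` is a square. -/
def WellDefined {R : Type} [CommRing R] (a e : R) (G : MvPolynomial (Fin 6) R) : Prop :=
  ∀ (F : Type) [Field F] (φ : R →+* F) (P : Fin 6 → F), IsPoint φ (surface a e G) P →
    (∀ n m n' m', Num P n → Den P m → Num P n' → Den P m' → n * m ≠ 0 → n' * m' ≠ 0 →
      (IsNorm (φ a) (n * m) ↔ IsNorm (φ a) (n' * m'))) ∧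
    ((∀ n m, Num P n → Den P m → n * m = 0) → IsSquare (φ a))

section proof

open Pool.Agent.H85.BM (OnV OnX main real_triv complex_triv wd sq_of_zero)
open Pool.Agent.H85.CY (phi)

lemma onV {R F : Type} [CommRing R] [Field F] {φ : R →+* F} {a e : R}
    {G : MvPolynomial (Fin 6) R} {P : Fin 6 → F} (h : IsPoint φ (surface a e G) P) :
    OnV (φ a) P := by
  have h0 := h.2 0
  have h1 := h.2 1
  simp only [surface, Matrix.cons_val_zero, Matrix.cons_val_one, eval₂_sub, eval₂_add, eval₂_mul,
    eval₂_pow, eval₂_X, eval₂_C] at h0 h1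
  have h2 : eval₂ φ P (2 : MvPolynomial (Fin 6) R) = 2 := by
    have h3 : (2 : MvPolynomial (Fin 6) R) = C 2 := (map_ofNat C 2).symm
    rw [h3, eval₂_C, map_ofNat]
  rw [h2] at h1
  exact ⟨by linear_combination h0, by linear_combination h1⟩

lemma onX {R F : Type} [CommRing R] [Field F] {φ : R →+* F} {a e : R}
    {G : MvPolynomial (Fin 6) R} {P : Fin 6 → F} (h : IsPoint φ (surface a e G) P) :
    OnX (φ a) (φ e) (fun Q => eval Q (map φ G)) P := by
  refine ⟨onV h, ?_⟩
  have h2 := h.2 2
  simp only [surface, Matrix.cons_val_two, Matrix.tail_cons, Matrix.head_cons, eval₂_sub,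
    eval₂_mul, eval₂_pow, eval₂_X, eval₂_C] at h2
  simp only
  rw [eval_map]
  linear_combination h2

lemma triv_iff {F : Type} [Field F] (a : F) (P : Fin 6 → F) :
    Trivial a P ↔ Pool.Agent.H85.BM.Triv a P := Iff.rfl

end proof

open Pool.Agent.H85.BM (OnV OnX main real_triv complex_triv wd sq_of_zero) in
open Pool.Agent.H85.CY (phi) in
/-- **Theorem.** Let `K` be a number field, `a = c² + 4k ∈ O_K` with `|N(a)| ≡ 5` modulo 8, `e ∈ O_K` coprime
to `a`, and `G` any quadratic form over `O_K` in six variables.  Let `X` be the surface `u v = x₁² - a y₁²`,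
`(u + v)(u + 2v) = x₂² - a y₂²`, `e (x₁² - x₂²) = a G` in `P⁵`.  The value of the algebra `(a, u/(u+v))` is well
defined at all points, and for all number fields `L` of odd degree over `K` and all families of points
`P_w ∈ X(L_w)`, the set of the finite places `w` such that the value at `P_w` is not trivial is finite and
has an odd number of elements.  The value is trivial at all real and complex points. -/
theorem result (K : Type) [Field K] [NumberField K] (c k e : 𝓞 K)
    (hN : Ideal.absNorm (Ideal.span {c ^ 2 + 4 * k}) % 8 = 5)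
    (hco : IsCoprime (c ^ 2 + 4 * k) e) (G : MvPolynomial (Fin 6) (𝓞 K))
    (hG : G.IsHomogeneous 2) :
    WellDefined (c ^ 2 + 4 * k) e G ∧
    ∀ (L : Type) [Field L] [NumberField L] [Algebra K L], Odd (Module.finrank K L) →
      (∀ P : (w : HeightOneSpectrum (𝓞 L)) → Fin 6 → w.adicCompletion L,
        (∀ w, IsPoint (toCompletion K L w) (surface (c ^ 2 + 4 * k) e G) (P w)) →
        {w | ¬ Trivial (toCompletion K L w (c ^ 2 + 4 * k)) (P w)}.Finite ∧
        Odd {w | ¬ Trivial (toCompletion K L w (c ^ 2 + 4 * k)) (P w)}.ncard) ∧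
      (∀ (σ : L →+* ℝ) (P : Fin 6 → ℝ),
        IsPoint (σ.comp (algebraMap (𝓞 K) L)) (surface (c ^ 2 + 4 * k) e G) P →
        Trivial (σ (algebraMap (𝓞 K) L (c ^ 2 + 4 * k))) P) ∧
      (∀ (σ : L →+* ℂ) (P : Fin 6 → ℂ),
        IsPoint (σ.comp (algebraMap (𝓞 K) L)) (surface (c ^ 2 + 4 * k) e G) P →
        Trivial (σ (algebraMap (𝓞 K) L (c ^ 2 + 4 * k))) P) := by
  have ha : c ^ 2 + 4 * k ≠ 0 := by
    intro h
    rw [h, Ideal.span_singleton_zero, Ideal.absNorm_bot] at hN
    norm_num at hN
  refine ⟨?_, ?_⟩
  · intro F _ φ P hP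
    have h := onV hP
    refine ⟨?_, ?_⟩
    · intro n m n' m' hn hm hn' hm' h0 h0'
      exact ⟨fun h1 => wd h hn hm hn' hm' h0 h1, fun h1 => wd h hn' hm' hn hm h0' h1⟩
    · intro h0
      obtain ⟨r, hr⟩ := sq_of_zero h hP.1 h0
      exact ⟨r, by rw [← hr, sq]⟩
  · intro L _ _ _ hL
    have ha' : ∀ (F : Type) [Field F] (σ : L →+* F),
        σ (algebraMap (𝓞 K) L (c ^ 2 + 4 * k)) ≠ 0 := by
      intro F _ σ h
      apply ha
      have h1 : Function.Injective (σ.comp (algebraMap (𝓞 K) L)) := by
        rw [RingHom.coe_comp]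
        refine σ.injective.comp ?_
        have h2 : algebraMap (𝓞 K) L = (algebraMap K L).comp (algebraMap (𝓞 K) K) :=
          IsScalarTower.algebraMap_eq (𝓞 K) K L
        rw [h2, RingHom.coe_comp]
        exact (algebraMap K L).injective.comp (FaithfulSMul.algebraMap_injective (𝓞 K) K)
      apply h1
      rw [map_zero]
      exact h
    refine ⟨?_, ?_, ?_⟩
    · intro P hP
      have key := main K c k e hN hco G hG L hL P fun w => ⟨(hP w).1, onX (hP w)⟩
      have h1 : {w | ¬ Trivial (toCompletion K L w (c ^ 2 + 4 * k)) (P w)} =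
          {w | ¬ Pool.Agent.H85.BM.Triv (phi K w (c ^ 2 + 4 * k)) (P w)} := by
        ext w
        exact not_congr (triv_iff _ _)
      rw [h1]
      exact key
    · intro σ P hP
      have h1 := onV hP
      rw [RingHom.comp_apply] at h1
      rw [triv_iff]
      exact real_triv _ (ha' ℝ σ) h1
    · intro σ P _
      rw [triv_iff]
      exact complex_triv _ (ha' ℂ σ) P

end Pool.Agent.Results.MP_ed3816_nt.BrauerManinEmpty
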