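import Pool.Agent.H85.BM.Main
import Pool.Agent.H85.BM.Pts
import Pool.Agent.H85.BM.Sm2

/-!
# MP_ed3816_nt: a family of K3 surfaces that fail the Hasse principle over all fields of odd degree

Let `L` be a number field, and let `G` be a quadratic form over `O_L` in the six variables `u, v, x₁, y₁, x₂,
y₂` such that the surface

  `X_G : u v = x₁² - 5 y₁²`,  `(u + v)(u + 2v) = x₂² - 5 y₂²`,  `x₁² - x₂² = 5 G(u, v, x₁, y₁, x₂, y₂)`

in `P⁵` contains the points `(√5 : 0 : √5 : 1 : √5 : 0)`, `(9 : 4 : 9 : 3 : 1 : 2√-11)`,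
`(5 : 20 : 35 : 15 : 5 : 2√-55)` and their conjugates.  (These are six linear conditions for the 21
coefficients of `G`.)  Then `X_G` has points over all completions of `L`: one of `5, -11, -55` is a square
in `L_w`, for every `w`.  If the degree of `L` over `ℚ` is odd, then for every family of points
`P_w ∈ X_G(L_w)` the value of the quaternion algebra `(5, u/(u+v))` is nontrivial at an odd number of
places `w`, so the sum of its local invariants is `1/2`.  If `X_G` is smooth then it is a K3 surface and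
this algebra is unramified on `X_G`.  So `X_G(A_L)` is not empty, `X_G(A_L)^Br` is empty, and so is `X_G(L)`.
An example is `G = -2 u v - 2 y₂²`, i.e. the K3 surface

  `u v = x₁² - 5 y₁²`,  `(u + v)(u + 2v) = x₂² - 5 y₂²`,  `x₂² - x₁² = 10 u v + 10 y₂²`,

which is smooth, and so is the general surface of the family.

Proof.  For the local points: above 2, `y² + y + 14` has a root by Hensel's lemma, so `-55` is a square.
Above 5, `-11 ≡ 2²` is a square, above 11, `5 ≡ 4²` is a square, and at all the other places these three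
numbers are units and the product of two of them is the third one.  For the algebra, see
`BrauerManinEmpty`: at the places `w` not dividing 5 the value is trivial, and also if the ramification
index of `w` over 5 is even, and if it is odd, the existence of a point implies that `-1` is a square in
the residue field with `q` elements, and the value is nontrivial if and only if `q ≡ 5` modulo 8, i.e. if
the residue degree is odd.  The number of the places of `L` above 5 with odd ramification index and odd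
residue degree is odd.  For smoothness, the three quadratic forms of the example are diagonal in the
variables `u ± √2 v, x₁, y₁, x₂, y₂`, and all the 20 minors of the matrix of the coefficients are not zero.
-/

set_option autoImplicit false

open NumberField IsDedekindDomain

namespace Pool.Agent.Results.MP_ed3816_nt.LocallySoluble

open MvPolynomial in
/-- The three quadratic forms in the variables `u, v, x₁, y₁, x₂, y₂`. -/
noncomputable def surface {R : Type} [CommRing R] (G : MvPolynomial (Fin 6) R) :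
    Fin 3 → MvPolynomial (Fin 6) R :=
  ![X 0 * X 1 - (X 2 ^ 2 - 5 * X 3 ^ 2),
    (X 0 + X 1) * (X 0 + 2 * X 1) - (X 4 ^ 2 - 5 * X 5 ^ 2),
    X 2 ^ 2 - X 4 ^ 2 - 5 * G]

open MvPolynomial in
/-- `P` represents a point over the field `F` of the surface defined by the forms `Q`, whose coefficients
are mapped to `F` by `φ`. -/
def IsPoint {R F : Type} [CommRing R] [Field F] (φ : R →+* F) (Q : Fin 3 → MvPolynomial (Fin 6) R)
    (P : Fin 6 → F) : Prop :=
  P ≠ 0 ∧ ∀ j, eval₂ φ P (Q j) = 0

open Polynomial in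
/-- `G` is a quadratic form, and the surface contains the three pairs of conjugate points: the value of
`G` is `0`, `16`, `240` at the points `(t, 0, t, 1, t, 0)` for `t² = 5`, `(9, 4, 9, 3, 1, 2t)` for `t² = -11`,
`(5, 20, 35, 15, 5, 2t)` for `t² = -55`. -/
def Family {R : Type} [CommRing R] (G : MvPolynomial (Fin 6) R) : Prop :=
  G.IsHomogeneous 2 ∧
  (X ^ 2 - 5 : R[X]) ∣ MvPolynomial.aeval ![X, 0, X, 1, X, 0] G ∧
  (X ^ 2 + 11 : R[X]) ∣ MvPolynomial.aeval ![9, 4, 9, 3, 1, 2 * X] G - 16 ∧
  (X ^ 2 + 55 : R[X]) ∣ MvPolynomial.aeval ![5, 20, 35, 15, 5, 2 * X] G - 240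

/-- `b` is a norm from the extension of `F` by `√5`: the quaternion algebra `(5, b)` over `F` is split. -/
def IsNorm {F : Type} [Field F] (b : F) : Prop := ∃ s t : F, s ^ 2 - 5 * t ^ 2 = b

/-- The value at `P` of the algebra `(5, n/m)`, where `n` is `u` or `v` and `m` is `u + v` or `u + 2v`, is
trivial. -/
def Trivial {F : Type} [Field F] (P : Fin 6 → F) : Prop :=
  ∀ n m, (n = P 0 ∨ n = P 1) → (m = P 0 + P 1 ∨ m = P 0 + 2 * P 1) → n * m ≠ 0 → IsNorm (n * m)

/-- The value of the algebra is well defined at all points of the surface: it does not depend on `n` and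
`m`, and if all the products `n m` are zero then `5` is a square. -/
def WellDefined {R : Type} [CommRing R] (G : MvPolynomial (Fin 6) R) : Prop :=
  ∀ (F : Type) [Field F] (φ : R →+* F) (P : Fin 6 → F), IsPoint φ (surface G) P →
    (∀ n m n' m', (n = P 0 ∨ n = P 1) → (m = P 0 + P 1 ∨ m = P 0 + 2 * P 1) →
      (n' = P 0 ∨ n' = P 1) → (m' = P 0 + P 1 ∨ m' = P 0 + 2 * P 1) → n * m ≠ 0 → n' * m' ≠ 0 →
      (IsNorm (n * m) ↔ IsNorm (n' * m'))) ∧
    ((∀ n m, (n = P 0 ∨ n = P 1) → (m = P 0 + P 1 ∨ m = P 0 + 2 * P 1) → n * m = 0) →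
      IsSquare (5 : F))

/-- The map from `O_L` to the completion `L_w`. -/
noncomputable def toCompletion {L : Type} [Field L] [NumberField L]
    (w : HeightOneSpectrum (𝓞 L)) : 𝓞 L →+* w.adicCompletion L :=
  (algebraMap L (w.adicCompletion L)).comp (algebraMap (𝓞 L) L)

open MvPolynomial in
/-- The intersection of the three quadrics is smooth of dimension 2: the gradients of the forms are
linearly independent at all the common zeros over the algebraic closure. -/
def Smooth {L : Type} [Field L] (Q : Fin 3 → MvPolynomial (Fin 6) (𝓞 L)) : Prop :=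
  ∀ z : Fin 6 → AlgebraicClosure L, z ≠ 0 → (∀ j, aeval z (Q j) = 0) →
    LinearIndependent (AlgebraicClosure L) fun (j : Fin 3) (p : Fin 6) => aeval z (pderiv p (Q j))

section proof

open Pool.Agent.H85.BM (ex_smooth)

section point

variable {R F : Type} [CommRing R] [Field F] {φ : R →+* F} {G : MvPolynomial (Fin 6) R}

open MvPolynomial in
lemma eval_two (φ : R →+* F) (P : Fin 6 → F) : eval₂ φ P (2 : MvPolynomial (Fin 6) R) = 2 :=
  map_ofNat (eval₂Hom φ P) 2

open MvPolynomial in
lemma eval_five (φ : R →+* F) (P : Fin 6 → F) : eval₂ φ P (5 : MvPolynomial (Fin 6) R) = 5 :=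
  map_ofNat (eval₂Hom φ P) 5

open MvPolynomial in
lemma isPoint_iff {P : Fin 6 → F} : IsPoint φ (surface G) P ↔
    P ≠ 0 ∧ P 0 * P 1 = P 2 ^ 2 - 5 * P 3 ^ 2 ∧
      (P 0 + P 1) * (P 0 + 2 * P 1) = P 4 ^ 2 - 5 * P 5 ^ 2 ∧
      P 2 ^ 2 - P 4 ^ 2 = 5 * eval₂ φ P G := by
  rw [IsPoint]
  refine and_congr_right fun _ => ?_
  constructor
  · intro h
    have h0 := h 0
    have h1 := h 1
    have h2 := h 2
    simp only [surface, Matrix.cons_val_zero, Matrix.cons_val_one, Matrix.cons_val_two,
      Matrix.tail_cons, Matrix.head_cons, eval₂_sub, eval₂_add, eval₂_mul, eval₂_pow, eval₂_X,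
      eval_two, eval_five] at h0 h1 h2
    exact ⟨by linear_combination h0, by linear_combination h1, by linear_combination h2⟩
  · rintro ⟨h0, h1, h2⟩ j
    fin_cases j
    · change eval₂ φ P (X 0 * X 1 - (X 2 ^ 2 - 5 * X 3 ^ 2)) = 0
      simp only [eval₂_sub, eval₂_mul, eval₂_pow, eval₂_X, eval_five]
      linear_combination h0
    · change eval₂ φ P ((X 0 + X 1) * (X 0 + 2 * X 1) - (X 4 ^ 2 - 5 * X 5 ^ 2)) = 0
      simp only [eval₂_sub, eval₂_add, eval₂_mul, eval₂_pow, eval₂_X, eval_two, eval_five]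
      linear_combination h1
    · change eval₂ φ P (X 2 ^ 2 - X 4 ^ 2 - 5 * G) = 0
      simp only [eval₂_sub, eval₂_mul, eval₂_pow, eval₂_X, eval_five]
      linear_combination h2

/-- evaluation along a curve -/
lemma eval_curve (φ : R →+* F) (p : Fin 6 → Polynomial R) (r : F) :
    Polynomial.eval₂ φ r (MvPolynomial.aeval p G) =
      MvPolynomial.eval₂ φ (fun i => Polynomial.eval₂ φ r (p i)) G := by
  have h1 : (Polynomial.eval₂RingHom φ r).comp (MvPolynomial.aeval p).toRingHom =
      MvPolynomial.eval₂Hom φ (fun i => Polynomial.eval₂ φ r (p i)) := by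
    apply MvPolynomial.ringHom_ext
    · intro c
      simp
    · intro i
      simp
  exact RingHom.congr_fun h1 G

/-- points over the fields that contain one of the three square roots -/
lemma exists_point (h50 : (5 : F) ≠ 0) (hG : Family G) {r : F} (hr : r ^ 2 = 5 ∨ r ^ 2 = -11 ∨ r ^ 2 = -55) :
    ∃ P, IsPoint φ (surface G) P := by
  obtain ⟨-, ⟨p5, h5⟩, ⟨p11, h11⟩, ⟨p55, h55⟩⟩ := hG
  rcases hr with hr | hr | hr
  · have e := congrArg (Polynomial.eval₂ φ r) h5
    rw [eval_curve, Polynomial.eval₂_mul, Polynomial.eval₂_sub, Polynomial.eval₂_pow,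
      Polynomial.eval₂_X, Polynomial.eval₂_ofNat, hr, sub_self, zero_mul] at e
    have hc : (fun i => Polynomial.eval₂ φ r
        ((![Polynomial.X, 0, Polynomial.X, 1, Polynomial.X, 0] : Fin 6 → Polynomial R) i)) =
        ![r, 0, r, 1, r, 0] := by
      funext i
      fin_cases i <;> simp
    rw [hc] at e
    refine ⟨![r, 0, r, 1, r, 0], isPoint_iff.2 ⟨?_, ?_, ?_, ?_⟩⟩
    · intro h
      have := congrFun h 3
      exact one_ne_zero this
    · change r * 0 = r ^ 2 - 5 * 1 ^ 2
      rw [hr]
      ring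
    · change (r + 0) * (r + 2 * 0) = r ^ 2 - 5 * 0 ^ 2
      ring
    · rw [e]
      change r ^ 2 - r ^ 2 = 5 * 0
      ring
  · have e := congrArg (Polynomial.eval₂ φ r) h11
    rw [Polynomial.eval₂_sub, eval_curve, Polynomial.eval₂_mul, Polynomial.eval₂_add,
      Polynomial.eval₂_pow, Polynomial.eval₂_X, Polynomial.eval₂_ofNat, Polynomial.eval₂_ofNat, hr,
      neg_add_cancel, zero_mul, sub_eq_zero] at e
    have hc : (fun i => Polynomial.eval₂ φ r
        ((![9, 4, 9, 3, 1, 2 * Polynomial.X] : Fin 6 → Polynomial R) i)) =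
        ![9, 4, 9, 3, 1, 2 * r] := by
      funext i
      fin_cases i <;> simp
    rw [hc] at e
    refine ⟨![9, 4, 9, 3, 1, 2 * r], isPoint_iff.2 ⟨?_, ?_, ?_, ?_⟩⟩
    · intro h
      have := congrFun h 4
      exact one_ne_zero this
    · change (9 : F) * 4 = 9 ^ 2 - 5 * 3 ^ 2
      norm_num
    · change ((9 : F) + 4) * (9 + 2 * 4) = 1 ^ 2 - 5 * (2 * r) ^ 2
      linear_combination 20 * hr
    · rw [e]
      change (9 : F) ^ 2 - 1 ^ 2 = 5 * 16
      norm_num
  · have e := congrArg (Polynomial.eval₂ φ r) h55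
    rw [Polynomial.eval₂_sub, eval_curve, Polynomial.eval₂_mul, Polynomial.eval₂_add,
      Polynomial.eval₂_pow, Polynomial.eval₂_X, Polynomial.eval₂_ofNat, Polynomial.eval₂_ofNat, hr,
      neg_add_cancel, zero_mul, sub_eq_zero] at e
    have hc : (fun i => Polynomial.eval₂ φ r
        ((![5, 20, 35, 15, 5, 2 * Polynomial.X] : Fin 6 → Polynomial R) i)) =
        ![5, 20, 35, 15, 5, 2 * r] := by
      funext i
      fin_cases i <;> simp
    rw [hc] at e
    refine ⟨![5, 20, 35, 15, 5, 2 * r], isPoint_iff.2 ⟨?_, ?_, ?_, ?_⟩⟩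
    · intro h
      exact h50 (congrFun h 0)
    · change (5 : F) * 20 = 35 ^ 2 - 5 * 15 ^ 2
      norm_num
    · change ((5 : F) + 20) * (5 + 2 * 20) = 5 ^ 2 - 5 * (2 * r) ^ 2
      linear_combination 20 * hr
    · rw [e]
      change (35 : F) ^ 2 - 5 ^ 2 = 5 * 240
      norm_num

end point

section smooth

open MvPolynomial in
lemma surface_eq {R : Type} [CommRing R] (G : MvPolynomial (Fin 6) R) (j : Fin 3) :
    surface G j = Pool.Agent.H85.BM.eqs (5 : R) 1 G j := by
  have h5 : (C (5 : R) : MvPolynomial (Fin 6) R) = 5 := map_ofNat C 5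
  fin_cases j
  · change X 0 * X 1 - (X 2 ^ 2 - 5 * X 3 ^ 2) = X 0 * X 1 - X 2 ^ 2 + C (5 : R) * X 3 ^ 2
    rw [h5]
    ring
  · change (X 0 + X 1) * (X 0 + 2 * X 1) - (X 4 ^ 2 - 5 * X 5 ^ 2) =
      (X 0 + X 1) * (X 0 + 2 * X 1) - X 4 ^ 2 + C (5 : R) * X 5 ^ 2
    rw [h5]
    ring
  · change X 2 ^ 2 - X 4 ^ 2 - 5 * G = C (1 : R) * (X 2 ^ 2 - X 4 ^ 2) - C (5 : R) * G
    rw [h5, C_1, one_mul]

open MvPolynomial in
lemma smooth_example (L : Type) [Field L] [NumberField L] :
    Smooth (surface (-2 * X 0 * X 1 - 2 * X 5 ^ 2 : MvPolynomial (Fin 6) (𝓞 L))) := by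
  intro z hz hQ
  simp only [surface_eq] at hQ ⊢
  obtain ⟨s, hs⟩ := IsAlgClosed.exists_pow_nat_eq (2 : AlgebraicClosure L) two_pos
  exact ex_smooth hs z hz hQ

end smooth

end proof

open Pool.Agent.H85.BM (main three_squares isNorm_of_sq wd sq_of_zero) in
open Pool.Agent.H85.CY (phi) in
open MvPolynomial in
/-- **Theorem.** Let `L` be a number field and `G` a quadratic form over `O_L` such that the surface `X_G`:
`u v = x₁² - 5 y₁²`, `(u + v)(u + 2v) = x₂² - 5 y₂²`, `x₁² - x₂² = 5 G` contains the points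
`(√5 : 0 : √5 : 1 : √5 : 0)`, `(9 : 4 : 9 : 3 : 1 : 2√-11)`, `(5 : 20 : 35 : 15 : 5 : 2√-55)`.  Then `X_G` has
points over all the completions of `L`.  If the degree of `L` is odd, then for all families of points
`P_w ∈ X_G(L_w)` the set of the finite places `w` at which the value of the algebra `(5, u/(u+v))` is not
trivial is finite and has an odd number of elements.  The form `G = -2 u v - 2 y₂²` has this property for
all `L`, and its surface is smooth. -/
theorem result :
    (∀ (L : Type) [Field L] [NumberField L] (G : MvPolynomial (Fin 6) (𝓞 L)), Family G →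
      (∀ w : HeightOneSpectrum (𝓞 L), ∃ P, IsPoint (toCompletion w) (surface G) P) ∧
      (∀ σ : L →+* ℝ, ∃ P, IsPoint (σ.comp (algebraMap (𝓞 L) L)) (surface G) P) ∧
      (∀ σ : L →+* ℂ, ∃ P, IsPoint (σ.comp (algebraMap (𝓞 L) L)) (surface G) P) ∧
      (Odd (Module.finrank ℚ L) →
        ∀ P : (w : HeightOneSpectrum (𝓞 L)) → Fin 6 → w.adicCompletion L,
          (∀ w, IsPoint (toCompletion w) (surface G) (P w)) →
          {w | ¬ Trivial (P w)}.Finite ∧ Odd {w | ¬ Trivial (P w)}.ncard) ∧
      WellDefined G) ∧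
    (∀ P : Fin 6 → ℝ, Trivial P) ∧ (∀ P : Fin 6 → ℂ, Trivial P) ∧
    ∀ (L : Type) [Field L] [NumberField L],
      Family (-2 * X 0 * X 1 - 2 * X 5 ^ 2 : MvPolynomial (Fin 6) (𝓞 L)) ∧
      Smooth (surface (-2 * X 0 * X 1 - 2 * X 5 ^ 2 : MvPolynomial (Fin 6) (𝓞 L))) := by
  refine ⟨?_, ?_, ?_, ?_⟩
  · intro L _ _ G hG
    refine ⟨?_, ?_, ?_, ?_, ?_⟩
    · intro w
      obtain ⟨r, hr⟩ := three_squares w
      refine exists_point ?_ hG hr
      have h : (5 : w.adicCompletion L) = algebraMap L (w.adicCompletion L) 5 := by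
        rw [map_ofNat]
      rw [h, Ne, map_eq_zero]
      norm_num
    · intro σ
      exact exists_point (by norm_num) hG (r := Real.sqrt 5)
        (Or.inl (Real.sq_sqrt (by norm_num)))
    · intro σ
      obtain ⟨r, hr⟩ := IsAlgClosed.exists_pow_nat_eq (5 : ℂ) two_pos
      exact exists_point (by norm_num) hG (Or.inl hr)
    · intro hL P hP
      have hN : Ideal.absNorm (Ideal.span {(1 : 𝓞 L) ^ 2 + 4 * 1}) % 8 = 5 := by
        have h1 : (1 : 𝓞 L) ^ 2 + 4 * 1 = ((5 : ℕ) : 𝓞 L) := by norm_num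
        rw [h1, Ideal.absNorm_span_natCast, RingOfIntegers.rank]
        obtain ⟨m, hm⟩ := hL
        rw [hm, pow_succ, pow_mul, Nat.mul_mod, Nat.pow_mod]
        norm_num
      have hco : IsCoprime ((1 : 𝓞 L) ^ 2 + 4 * 1) 1 := isCoprime_one_right
      have h5 : ∀ w : HeightOneSpectrum (𝓞 L), phi L w ((1 : 𝓞 L) ^ 2 + 4 * 1) = 5 := by
        intro w
        simp only [map_add, map_mul, map_pow, map_one, map_ofNat]
        norm_num
      have key := main L 1 1 1 hN hco G hG.1 L (by rw [Module.finrank_self]; exact odd_one) P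
        (fun w => by
          have h := isPoint_iff.1 (hP w)
          refine ⟨h.1, ⟨?_, ?_⟩, ?_⟩
          · rw [h5]
            exact h.2.1
          · rw [h5]
            exact h.2.2.1
          · rw [h5, map_one, one_mul]
            simp only
            rw [eval_map]
            exact h.2.2.2)
      simp only [h5] at key
      exact key
    · intro F _ φ P hP
      have h := isPoint_iff.1 hP
      have hV : Pool.Agent.H85.BM.OnV (5 : F) P := ⟨h.2.1, h.2.2.1⟩
      refine ⟨?_, ?_⟩
      · intro n m n' m' hn hm hn' hm' h0 h0'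
        exact ⟨fun h1 => wd hV hn hm hn' hm' h0 h1, fun h1 => wd hV hn' hm' hn hm h0' h1⟩
      · intro h0
        obtain ⟨r, hr⟩ := sq_of_zero hV h.1 h0
        exact ⟨r, by rw [← hr, sq]⟩
  · intro P n m _ _ _
    exact isNorm_of_sq two_ne_zero (by norm_num) (r := Real.sqrt 5)
      (Real.sq_sqrt (by norm_num)) _
  · intro P n m _ _ _
    obtain ⟨r, hr⟩ := IsAlgClosed.exists_pow_nat_eq (5 : ℂ) two_pos
    exact isNorm_of_sq two_ne_zero (by norm_num) hr _
  · intro L _ _
    have h2 : (2 : MvPolynomial (Fin 6) (𝓞 L)) = C 2 := (map_ofNat C 2).symm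
    have hval : ∀ p : Fin 6 → Polynomial (𝓞 L),
        aeval p (-2 * X 0 * X 1 - 2 * X 5 ^ 2 : MvPolynomial (Fin 6) (𝓞 L)) =
          -2 * p 0 * p 1 - 2 * p 5 ^ 2 := by
      intro p
      simp only [map_sub, map_mul, map_neg, map_pow, aeval_X, map_ofNat]
    refine ⟨⟨?_, ?_, ?_, ?_⟩, smooth_example L⟩
    · refine IsHomogeneous.sub ?_ ?_
      · have h3 : (-2 * X 0 * X 1 : MvPolynomial (Fin 6) (𝓞 L)) = C (-2) * (X 0 * X 1) := by
          rw [map_neg, ← h2]
          ring
        rw [h3]
        exact ((isHomogeneous_X _ 0).mul (isHomogeneous_X _ 1)).C_mul _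
      · rw [h2]
        exact (isHomogeneous_X_pow 5 2).C_mul _
    · rw [hval]
      refine ⟨0, ?_⟩
      change -2 * Polynomial.X * 0 - 2 * 0 ^ 2 = _
      ring
    · rw [hval]
      refine ⟨-8, ?_⟩
      change -2 * 9 * 4 - 2 * (2 * Polynomial.X) ^ 2 - 16 = _
      ring
    · rw [hval]
      refine ⟨-8, ?_⟩
      change -2 * 5 * 20 - 2 * (2 * Polynomial.X) ^ 2 - 240 = _
      ring

end Pool.Agent.Results.MP_ed3816_nt.LocallySoluble
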