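import Pool.Agent.H85.CY.Glob

/-!
# MP_ed3816_nt: K3 surfaces of degree 4 and 8 without points over all fields of odd ramification index

Let `K` be a number field, and `(r, d) = (1, 4)` or `(3, 2)`, i.e. `r (d - 1) = 3`.  In the projective space
of dimension `r d - 1` with the homogeneous coordinates `x_{i,k}` (`i < d`, `k < r`) we consider the
intersections of `r` hypersurfaces of degree `d`, i.e. the quartic surfaces in `P³` and the intersections
of three quadrics in `P⁵`.  If they are smooth (of dimension 2), they are K3 surfaces.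

Let `b ∈ O_K`, let `F_{i,j}` be a form of degree `d` in the `r` variables `x_{i,k}`, and

  `X_G : ∑_i b^i F_{i,j}(x_{i,1}, …, x_{i,r}) + G_j = 0`   (`j < r`),

where `G_j` is ANY form of degree `d` in all the variables whose coefficient at a monomial of weight `n`
(the variables `x_{i,k}` have weight `i`) is divisible by `b ^ (⌊n/d⌋ + 1)`.  So for `(r, d) = (3, 2)` the
surfaces are given by the three equations `F_j(x) + b F'_j(y) + G_j(x, y) = 0` in the variables `x_1, x_2,
x_3, y_1, y_2, y_3`, with `G_j` divisible by `b` and `G_j(0, y)` divisible by `b²`; for `(r, d) = (1, 4)` by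
`a_0 x_0⁴ + b a_1 x_1⁴ + b² a_2 x_2⁴ + b³ a_3 x_3⁴ + G = 0`.  For `b = 1` these are all quartic surfaces
and all intersections of three quadrics.

For every `M`, 100% of the vectors `(b, F)` have the following property: `X_0` is smooth, and there are `M`
primes `v` of `K` such that for all number fields `L` over `K`, all the places `w` of `L` above these `v`
with an ODD ramification index, and all `G`, the surface `X_G` has no point over `L_w`.  There is no
condition on the residue degree.  In particular, for all `L` of odd degree over `K`, and for all `L` of any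
degree such that fewer than `M` primes `v` of `K` have the property that all the ramification indices above
`v` are even (for instance if fewer than `M` primes of `K` ramify in `L`), there is a place `w` of `L` such
that `X_G(L_w)` is empty for all `G`.  So `X_G(A_L)` is empty, and `X_G(L)` is dense in `X_G(A_L)^Br`, which
is what the question asks for, for all smooth `X_G` and all these `L`.  The exceptional set of vectors does
not depend on `G` or `L`.  It has density zero in boxes (with respect to any integral basis), and in a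
stronger sense: for every `ε > 0` there is an ideal `I ≠ 0` such that the exceptional vectors lie in at
most `ε #(O_K/I)^n` classes modulo `I`, where `n` is the number of coordinates.

Proof.  Let `v` be a prime of `K` that divides `b` exactly once, such that for every `i` the forms `F_{i,j}`,
`j < r`, have no common zero modulo `v` over an algebraic closure.  Let `w` be a place above `v` with an
odd ramification index `e`.  Let `m_i` be the minimum of the valuations of the `x_{i,k}`.  Then
`min_j w(b^i F_{i,j}) = i e + d m_i`, and these numbers are different modulo `d`.  By the weights, the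
values of all the terms of `G` are larger than the smallest of these numbers.  So not all the sums can
be zero.  The forms have no common zeros modulo `v` if the determinant of their Macaulay matrix is not
divisible by `v`.  So by the Schwartz-Zippel lemma the conditions on `v` hold for a proportion of at
least `(1/N v - 1/(N v)²)/2` of all vectors modulo `v²`, if `N v` is large, and the sum of the `1/N v`
diverges.  Smoothness outside a hypersurface is proved by elimination (Nullstellensatz) from the example
`∑_p a_p^j x_p^d = 0` with distinct `a_p`.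
-/

set_option autoImplicit false

open NumberField Filter Topology IsDedekindDomain MvPolynomial

namespace Pool.Agent.Results.MP_ed3816_nt.OddRamification

/-- The exponent vectors of degree `d` in the variables indexed by `ι`. -/
abbrev Exps (ι : Type) [Fintype ι] [DecidableEq ι] (d : ℕ) : Type :=
  ↥(Finset.piAntidiag (Finset.univ : Finset ι) d)

/-- The index set of the coordinates of `(b, F)`: `none` for `b`, and `some (i, j, γ)` for the
coefficient of `F_{i,j}` at the monomial with the exponents `γ`. -/
abbrev Idx (r d : ℕ) : Type := Option (Fin d × Fin r × Exps (Fin r) d)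

/-- The form `F_{i,j}` in the variables `x_{i,k}`. -/
noncomputable def block {R : Type} [CommRing R] {r d : ℕ} (c : Idx r d → R) (i : Fin d)
    (j : Fin r) : MvPolynomial (Fin d × Fin r) R :=
  ∑ γ : Exps (Fin r) d, C (c (some (i, j, γ))) * ∏ k, X (i, k) ^ γ.1 k

/-- The forms `∑_i b ^ i F_{i,j} + G_j`. -/
noncomputable def form {R : Type} [CommRing R] {r d : ℕ} (c : Idx r d → R)
    (G : Fin r → MvPolynomial (Fin d × Fin r) R) (j : Fin r) : MvPolynomial (Fin d × Fin r) R :=
  ∑ i : Fin d, C (c none ^ (i : ℕ)) * block c i j + G j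

/-- The weight of a monomial: the variables `x_{i,k}` have weight `i`. -/
def weight {r d : ℕ} (α : Fin d × Fin r →₀ ℕ) : ℕ := ∑ p, (p.1 : ℕ) * α p

/-- The `G_j` are forms of degree `d` whose coefficients at the monomials of weight `n` are divisible
by `b ^ (⌊n/d⌋ + 1)`. -/
def Allowed {R : Type} [CommRing R] {r d : ℕ} (b : R)
    (G : Fin r → MvPolynomial (Fin d × Fin r) R) : Prop :=
  ∀ j, (G j).IsHomogeneous d ∧ ∀ α, b ^ (weight α / d + 1) ∣ (G j).coeff α

/-- The intersection of the hypersurfaces `Q_j = 0` is smooth of codimension `r`: the gradients of the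
forms are linearly independent at all the common zeros over the algebraic closure. -/
def Smooth {K : Type} [Field K] {r d : ℕ} (Q : Fin r → MvPolynomial (Fin d × Fin r) (𝓞 K)) :
    Prop :=
  ∀ z : Fin d × Fin r → AlgebraicClosure K, z ≠ 0 → (∀ j, aeval z (Q j) = 0) →
    LinearIndependent (AlgebraicClosure K)
      fun (j : Fin r) (p : Fin d × Fin r) => aeval z (pderiv p (Q j))

/-- The hypersurfaces `Q_j = 0` over `O_K` have no common point over the completion `L_w`: no vector
`x ≠ 0` with entries in `L_w` is a common zero. -/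
def NoPointOver {K : Type} [Field K] {r d : ℕ} (L : Type) [Field L] [NumberField L]
    [Algebra K L] (w : HeightOneSpectrum (𝓞 L))
    (Q : Fin r → MvPolynomial (Fin d × Fin r) (𝓞 K)) : Prop :=
  ∀ x : Fin d × Fin r → w.adicCompletion L, x ≠ 0 →
    ∃ j, eval₂ ((algebraMap L (w.adicCompletion L)).comp (algebraMap (𝓞 K) L)) x (Q j) ≠ 0

/-- The primes of `K` such that all the ramification indices above them in `L` are even. -/
def EvenSet (K L : Type) [Field K] [NumberField K] [Field L] [NumberField L] [Algebra K L] :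
    Set (HeightOneSpectrum (𝓞 K)) :=
  {v | ∀ w : HeightOneSpectrum (𝓞 L), w.asIdeal.LiesOver v.asIdeal →
    Even (v.asIdeal.ramificationIdx' w.asIdeal)}

/-- The vectors `(b, F)` that do not have the following property: `b ≠ 0`, the surface `X_0` is smooth,
there are `M` primes of `K` such that for all number fields `L` over `K`, all places `w` of `L` of odd
ramification index above these primes, and all allowed `G` the surface `X_G` has no point over `L_w`,
and for all number fields `L` over `K` of odd degree or with fewer than `M` primes in `EvenSet K L` there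
is a place `w` of `L` such that for all allowed `G` the surface `X_G` has no point over `L_w`. -/
def Exceptional (K : Type) [Field K] [NumberField K] (r d M : ℕ) : Set (Idx r d → 𝓞 K) :=
  {c | ¬ (c none ≠ 0 ∧ Smooth (form c 0) ∧
    (∃ T : Finset (HeightOneSpectrum (𝓞 K)), T.card = M ∧ ∀ v ∈ T,
      ∀ (L : Type) [Field L] [NumberField L] [Algebra K L] (w : HeightOneSpectrum (𝓞 L)),
        w.asIdeal.LiesOver v.asIdeal → Odd (v.asIdeal.ramificationIdx' w.asIdeal) →
        ∀ G, Allowed (c none) G → NoPointOver L w (form c G)) ∧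
    ∀ (L : Type) [Field L] [NumberField L] [Algebra K L],
      (Odd (Module.finrank K L) ∨ (EvenSet K L).encard < M) →
      ∃ w : HeightOneSpectrum (𝓞 L), ∀ G, Allowed (c none) G → NoPointOver L w (form c G))}

/-- Density zero: for every `ε > 0` there is an ideal `I ≠ 0` such that `E` lies in at most
`ε #(O_K/I) ^ |ι|` residue classes modulo `I`; and the proportion of `E` in the boxes, with respect to
any integral basis `ω`, tends to zero. -/
def DensityZero {K ι : Type} [Field K] [Fintype ι] (E : Set (ι → 𝓞 K)) : Prop :=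
  (∀ ε : ℝ, 0 < ε → ∃ I : Ideal (𝓞 K), I ≠ ⊥ ∧
    (Set.ncard ((fun (y : ι → 𝓞 K) i => Ideal.Quotient.mk I (y i)) '' E) : ℝ) ≤
      ε * (Nat.card (𝓞 K ⧸ I) : ℝ) ^ (Fintype.card ι)) ∧
  ∀ (J : Type) [Fintype J] (ω : Module.Basis J ℤ (𝓞 K)),
    Tendsto (fun H : ℕ => ((E ∩ {c | ∀ i j, |ω.repr (c i) j| ≤ (H : ℤ)}).ncard : ℝ) /
      (({c : ι → 𝓞 K | ∀ i j, |ω.repr (c i) j| ≤ (H : ℤ)}).ncard : ℝ)) atTop (𝓝 0)

section proof

open Pool.Agent.H85.CY (phi place fval macM rei GoodN goodN_iff mem_closure dens dens_box eqn)
open Pool.Agent.Q52.SecX (SmallV)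

variable {K : Type} [Field K] [NumberField K]

lemma eval_form {L : Type} [Field L] [NumberField L] [Algebra K L] (w : HeightOneSpectrum (𝓞 L))
    {r d : ℕ} (c : Idx r d → 𝓞 K) (G : Fin r → MvPolynomial (Fin d × Fin r) (𝓞 K)) (j : Fin r)
    (x : Fin d × Fin r → w.adicCompletion L) :
    eval₂ ((algebraMap L (w.adicCompletion L)).comp (algebraMap (𝓞 K) L)) x (form c G j) =
      ∑ i : Fin d, phi K w (c none) ^ (i : ℕ) *
        fval (fun γ => phi K w (c (some (i, j, γ)))) (fun k => x (i, k)) +
      eval x (map (phi K w) (G j)) := by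
  rw [eval_map]
  change eval₂Hom (phi K w) x (form c G j) = _ + eval₂Hom (phi K w) x (G j)
  rw [form, map_add]
  congr 1
  simp only [block, map_sum, map_mul, map_prod, map_pow, coe_eval₂Hom, eval₂_C, eval₂_X, fval]

lemma coprime_of_odd {r d : ℕ} (hrd : r * (d - 1) = 3) {e : ℕ} (he : Odd e) :
    Nat.Coprime e d := by
  have hd : d = 4 ∨ d = 2 := by
    have h1 : d - 1 ∣ 3 := ⟨r, by rw [← hrd]; ring⟩
    have h2 := (Nat.dvd_prime Nat.prime_three).1 h1
    omega
  rcases hd with rfl | rfl
  · exact Nat.Coprime.pow_right 2 (Nat.coprime_two_right.2 he)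
  · exact Nat.coprime_two_right.2 he

lemma noPoint {L : Type} [Field L] [NumberField L] [Algebra K L] {r d : ℕ}
    (hrd : r * (d - 1) = 3) (v : HeightOneSpectrum (𝓞 K)) (w : HeightOneSpectrum (𝓞 L))
    (hw : w.asIdeal.LiesOver v.asIdeal) (c : Idx r d → 𝓞 K) (h1 : c none ∈ v.asIdeal)
    (h2 : c none ∉ v.asIdeal ^ 2)
    (h3 : ∀ i : Fin d, (macM fun j γ => c (some (i, j, γ))).det ∉ v.asIdeal)
    (he : Odd (v.asIdeal.ramificationIdx' w.asIdeal))
    (G : Fin r → MvPolynomial (Fin d × Fin r) (𝓞 K)) (hG : ∀ j, (G j).IsHomogeneous d)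
    (hGc : ∀ j α, (G j).coeff α ∈ v.asIdeal ^ (weight α / d + 1)) :
    NoPointOver L w (form c G) := by
  intro x hx
  obtain ⟨j, hj⟩ := place v w (c none) h1 h2 (fun i j γ => c (some (i, j, γ))) h3
    (coprime_of_odd hrd he) G hG hGc x hx
  refine ⟨j, ?_⟩
  rw [eval_form]
  exact hj

lemma smooth_of {τ : Type} {r d : ℕ} {Δ : MvPolynomial τ ℚ} (c : τ → 𝓞 K)
    (Q : (R : Type) → [CommRing R] → (τ → R) → Fin r → MvPolynomial (Fin d × Fin r) R)
    (hQ : ∀ (R S : Type) [CommRing R] [CommRing S] (φ : R →+* S) (c : τ → R) (j : Fin r),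
      map φ (Q R c j) = Q S (fun o => φ (c o)) j)
    (h : ∀ (k : Type) [Field k] [Algebra ℚ k] (c : τ → k), aeval c Δ ≠ 0 →
      ∀ z : Fin d × Fin r → k, z ≠ 0 → (∀ j, eval z (Q k c j) = 0) →
        ∃ s : Fin r → Fin d × Fin r,
          (Matrix.of fun j l => eval z (pderiv (s l) (Q k c j))).det ≠ 0)
    (hc : aeval (fun o => algebraMap (𝓞 K) (AlgebraicClosure K) (c o)) Δ ≠ 0) :
    Smooth (Q (𝓞 K) c) := by
  intro z hz h0
  have e1 : ∀ (q : MvPolynomial (Fin d × Fin r) (𝓞 K)),
      aeval z q = eval z (map (algebraMap (𝓞 K) (AlgebraicClosure K)) q) := by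
    intro q
    rw [eval_map]
    rfl
  obtain ⟨s, hs⟩ := h (AlgebraicClosure K)
    (fun o => algebraMap (𝓞 K) (AlgebraicClosure K) (c o)) hc z hz (fun j => by
      rw [← hQ, ← e1]
      exact h0 j)
  rw [Fintype.linearIndependent_iff]
  intro g hg
  have h2 : Matrix.vecMul g (Matrix.of fun (j l : Fin r) => eval z (pderiv (s l)
      (Q (AlgebraicClosure K) (fun o => algebraMap (𝓞 K) (AlgebraicClosure K) (c o)) j))) = 0 := by
    funext l
    have h3 := congrFun hg (s l)
    rw [Finset.sum_apply] at h3
    rw [Matrix.vecMul, dotProduct, Pi.zero_apply]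
    rw [Pi.zero_apply] at h3
    rw [← h3]
    refine Finset.sum_congr rfl fun j _ => ?_
    rw [Matrix.of_apply, ← hQ, pderiv_map, Pi.smul_apply, smul_eq_mul, e1]
  have h3 := Matrix.eq_zero_of_vecMul_eq_zero hs h2
  intro j
  exact congrFun h3 j

lemma exceptional_sub (r d M : ℕ) (hrd : r * (d - 1) = 3) (Δ : MvPolynomial (Idx r d) ℚ)
    (hΔ : ∀ (k : Type) [Field k] [Algebra ℚ k] (c : Idx r d → k), aeval c Δ ≠ 0 →
      ∀ z : Fin d × Fin r → k, z ≠ 0 → (∀ j, eval z (eqn c j) = 0) →
        ∃ s : Fin r → Fin d × Fin r,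
          (Matrix.of fun j l => eval z (pderiv (s l) (eqn c j))).det ≠ 0) :
    Exceptional K r d M ⊆ {y : Idx r d → 𝓞 K |
      ¬ ∃ T : Finset (HeightOneSpectrum (𝓞 K)), T.card = M + 1 ∧
      ∀ v ∈ T, (fun o => Ideal.Quotient.mk (v.asIdeal ^ 2) (y o)) ∈ GoodN v r d} ∪
      {y : Idx r d → 𝓞 K |
        aeval (fun o => algebraMap (𝓞 K) (AlgebraicClosure K) (y o)) Δ = 0} := by
  intro c hc
  by_contra hcon
  rw [Set.mem_union, not_or] at hcon
  obtain ⟨h1, h2⟩ := hcon
  simp only [Set.mem_ofPred_eq, not_not] at h1 h2
  obtain ⟨T, hTc, hT⟩ := h1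
  apply hc
  obtain ⟨v₀, hv₀⟩ : T.Nonempty := by
    rw [← Finset.card_pos, hTc]
    omega
  have hgood : ∀ v ∈ T, ∀ (L : Type) [Field L] [NumberField L] [Algebra K L]
      (w : HeightOneSpectrum (𝓞 L)), w.asIdeal.LiesOver v.asIdeal →
      Odd (v.asIdeal.ramificationIdx' w.asIdeal) →
      ∀ G, Allowed (c none) G → NoPointOver L w (form c G) := by
    intro v hv L _ _ _ w hw he G hG
    obtain ⟨g1, g2, g3⟩ := goodN_iff v c (hT v hv)
    refine noPoint hrd v w hw c g1 g2 g3 he G (fun j => (hG j).1) fun j α => ?_
    obtain ⟨a, ha⟩ := (hG j).2 α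
    rw [ha]
    exact Ideal.mul_mem_right _ _ (Ideal.pow_mem_pow g1 _)
  obtain ⟨g1, g2, g3⟩ := goodN_iff v₀ c (hT v₀ hv₀)
  refine ⟨?_, ?_, ?_, ?_⟩
  · intro h0
    apply g2
    rw [h0]
    exact zero_mem _
  · have h3 : form c 0 = eqn c := by
      funext j
      rw [form, Pi.zero_apply, add_zero]
      rfl
    rw [h3]
    exact smooth_of c (fun R _ c => eqn c)
      (fun R S _ _ φ c j => Pool.Agent.H85.CY.eqn_map φ c j) hΔ h2
  · obtain ⟨T', hT', hc'⟩ := Finset.exists_subset_card_eq (s := T) (n := M) (by omega)
    exact ⟨T', hc', fun v hv => hgood v (hT' hv)⟩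
  · intro L _ _ _ hL
    by_contra hno
    push Not at hno
    have hsub : (T : Set (HeightOneSpectrum (𝓞 K))) ⊆ EvenSet K L := by
      intro v hv w hw
      by_contra he
      rw [Nat.not_even_iff_odd] at he
      obtain ⟨G, hG, hGn⟩ := hno w
      exact hGn (hgood v hv L w hw he G hG)
    rcases hL with h | h
    · have h4 := mem_closure (L := L) 2 v₀ (fun w hw h5 => by
        have h6 := hsub hv₀ w hw
        rw [Nat.coprime_two_right] at h5
        exact (Nat.not_even_iff_odd.2 h5) h6)
      have h5 : AddSubmonoid.closure {l : ℕ | l.Prime ∧ l ∣ 2} ≤ AddSubmonoid.multiples 2 := by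
        rw [AddSubmonoid.closure_le]
        rintro l ⟨hl, hl2⟩
        have h6 : l = 2 := (Nat.prime_dvd_prime_iff_eq hl Nat.prime_two).1 hl2
        rw [h6]
        exact AddSubmonoid.mem_multiples 2
      obtain ⟨m, hm⟩ := h5 h4
      have h7 : Even (Module.finrank K L) := ⟨m, by
        rw [← hm]
        simp only [smul_eq_mul]
        ring⟩
      exact (Nat.not_even_iff_odd.2 h) h7
    · have h1 : (T : Set (HeightOneSpectrum (𝓞 K))).encard ≤ (EvenSet K L).encard :=
        Set.encard_le_encard hsub
      rw [Set.encard_coe_eq_coe_finsetCard, hTc] at h1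
      have h2 := h1.trans_lt h
      have h4 : M + 1 < M := by exact_mod_cast h2
      omega

lemma density_of {ι : Type} [Fintype ι] (E : Set (ι → 𝓞 K))
    (h : ∀ ε : ℝ, 0 < ε → SmallV (Fintype.card ι) (rei '' E) ε) : DensityZero E :=
  ⟨dens E h, fun _ _ ω => dens_box E h ω⟩

end proof

/-- Let `K` be a number field and `(r, d) = (1, 4)` or `(3, 2)`.  For every `M` the set
`Exceptional K r d M` has density zero. -/
theorem result (K : Type) [Field K] [NumberField K] (r d : ℕ) (hrd : r * (d - 1) = 3) (M : ℕ) :
    DensityZero (Exceptional K r d M) := by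
  classical
  have hd : 0 < d := by
    rcases Nat.eq_zero_or_pos d with h | h
    · rw [h] at hrd
      omega
    · exact h
  obtain ⟨Δ, hΔ0, hΔ⟩ := Pool.Agent.H85.CY.smooth_generic r d hd
  refine density_of _ fun ε hε => ?_
  have h1 := Pool.Agent.H85.CY.many (K := K) r d (M + 1) (ε / 2) (by positivity)
  have h2 := Pool.Agent.H85.CY.zero_small (K := K) Δ hΔ0 (ε / 2) (by positivity)
  have h3 := h1.union h2
  rw [← Set.image_union] at h3
  exact h3.mono (Set.image_mono (exceptional_sub r d M hrd Δ hΔ)) (by linarith)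

end Pool.Agent.Results.MP_ed3816_nt.OddRamification
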