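import Pool.Agent.H85.CY.Glob

/-!
# MP_ed3816_nt: a positive proportion of all K3 surfaces of degree 4 and 8 has no adelic points over
# all fields of odd degree

Let `K` be a number field, and `(r, d) = (1, 4)` or `(3, 2)`, i.e. `r (d - 1) = 3`.  In the projective space
of dimension `r d - 1` with the homogeneous coordinates `x_{i,k}` (`i < d`, `k < r`) we consider ALL
intersections of `r` hypersurfaces of degree `d`, i.e. all quartic surfaces in `P³`, given by their `35`
coefficients, and all intersections of three quadrics in `P⁵`, given by their `63` coefficients.  If they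
are smooth (of dimension 2), they are K3 surfaces.

We prove that for every finite set `T` of primes of `K` there is a full residue class of vectors of
coefficients in `O_K` modulo an ideal `I ≠ 0` (so a positive proportion of all the surfaces) such that the
surfaces `X` in this class have no point over `L_w`, for all number fields `L` over `K` and all places `w`
of `L` of ODD ramification index above a prime in `T`, without a condition on the residue degree; and
that 100% of all vectors of coefficients (hence 100% of the vectors in the class) define smooth surfaces.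
So for 100% of the surfaces `X` in the class, `X` is a K3 surface, and for all number fields `L` over `K`
of odd degree, and for all number fields `L` over `K` of any degree such that not all the ramification
indices above all the primes in `T` are even, `X(A_L)` is empty, and `X(L)` is dense in `X(A_L)^Br`, which
is what the question asks for.

Proof.  Let `v` be a prime in `T` and let `b` be divisible by `v` exactly once.  We consider the forms
`∑_i b^i x_{i,j}^d + G_j`, where the coefficients of the `G_j` are divisible by `v^d`.  Let `w` be a place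
above `v` with an odd ramification index `e`, and let `m_i` be the minimum of the valuations of the
`x_{i,k}`.  Then `min_j w(b^i x_{i,j}^d) = i e + d m_i`, and these numbers are different modulo `d`.  The
values of all the terms of `G` are larger than the smallest of these numbers.  So not all the sums can
be zero.  Smoothness outside a hypersurface is proved by elimination (Nullstellensatz) from the example
`∑_p a_p^j x_p^d = 0` with distinct `a_p`, and the zero set of a polynomial has density zero by the
Schwartz-Zippel lemma.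
-/

set_option autoImplicit false

open NumberField Filter Topology IsDedekindDomain MvPolynomial

namespace Pool.Agent.Results.MP_ed3816_nt.PositiveProportion

/-- The exponent vectors of degree `d` in the variables indexed by `ι`. -/
abbrev Exps (ι : Type) [Fintype ι] [DecidableEq ι] (d : ℕ) : Type :=
  ↥(Finset.piAntidiag (Finset.univ : Finset ι) d)

/-- The index set of the coefficients of `r` forms of degree `d` in all the variables. -/
abbrev GIdx (r d : ℕ) : Type := Fin r × Exps (Fin d × Fin r) d

/-- The forms with the coefficients `c`. -/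
noncomputable def gform {R : Type} [CommRing R] {r d : ℕ} (c : GIdx r d → R) (j : Fin r) :
    MvPolynomial (Fin d × Fin r) R :=
  ∑ γ : Exps (Fin d × Fin r) d, C (c (j, γ)) * ∏ p, X p ^ γ.1 p

/-- The intersection of the hypersurfaces `Q_j = 0` is smooth of codimension `r`: the gradients of the
forms are linearly independent at all the common zeros over the algebraic closure. -/
def Smooth {K : Type} [Field K] {r d : ℕ} (Q : Fin r → MvPolynomial (Fin d × Fin r) (𝓞 K)) :
    Prop :=
  ∀ z : Fin d × Fin r → AlgebraicClosure K, z ≠ 0 → (∀ j, aeval z (Q j) = 0) →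
    LinearIndependent (AlgebraicClosure K)
      fun (j : Fin r) (p : Fin d × Fin r) => aeval z (pderiv p (Q j))

/-- The hypersurfaces `Q_j = 0` over `O_K` have no common point over the completion `L_w`: no vector
`x ≠ 0` with entries in `L_w` is a common zero. -/
def NoPointOver {K : Type} [Field K] {r d : ℕ} (L : Type) [Field L] [NumberField L]
    [Algebra K L] (w : HeightOneSpectrum (𝓞 L))
    (Q : Fin r → MvPolynomial (Fin d × Fin r) (𝓞 K)) : Prop :=
  ∀ x : Fin d × Fin r → w.adicCompletion L, x ≠ 0 →
    ∃ j, eval₂ ((algebraMap L (w.adicCompletion L)).comp (algebraMap (𝓞 K) L)) x (Q j) ≠ 0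

/-- Density zero: for every `ε > 0` there is an ideal `I ≠ 0` such that `E` lies in at most
`ε #(O_K/I) ^ |ι|` residue classes modulo `I`; and the proportion of `E` in the boxes, with respect to
any integral basis `ω`, tends to zero. -/
def DensityZero {K ι : Type} [Field K] [Fintype ι] (E : Set (ι → 𝓞 K)) : Prop :=
  (∀ ε : ℝ, 0 < ε → ∃ I : Ideal (𝓞 K), I ≠ ⊥ ∧
    (Set.ncard ((fun (y : ι → 𝓞 K) i => Ideal.Quotient.mk I (y i)) '' E) : ℝ) ≤
      ε * (Nat.card (𝓞 K ⧸ I) : ℝ) ^ (Fintype.card ι)) ∧
  ∀ (J : Type) [Fintype J] (ω : Module.Basis J ℤ (𝓞 K)),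
    Tendsto (fun H : ℕ => ((E ∩ {c | ∀ i j, |ω.repr (c i) j| ≤ (H : ℤ)}).ncard : ℝ) /
      (({c : ι → 𝓞 K | ∀ i j, |ω.repr (c i) j| ≤ (H : ℤ)}).ncard : ℝ)) atTop (𝓝 0)

section proof

open Pool.Agent.H85.CY (phi place fval macM dia Mon rei Idx weight
  exists_exact dens dens_box eqn eqn_hom block)
open Pool.Agent.Q52.SecX (SmallV)

variable {K : Type} [Field K] [NumberField K]

/-- the forms of a vector `(b, F)` plus `G` -/
noncomputable def form {R : Type} [CommRing R] {r d : ℕ} (c : Idx r d → R)
    (G : Fin r → MvPolynomial (Fin d × Fin r) R) (j : Fin r) : MvPolynomial (Fin d × Fin r) R :=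
  ∑ i : Fin d, C (c none ^ (i : ℕ)) * block c i j + G j

lemma eval_form {L : Type} [Field L] [NumberField L] [Algebra K L] (w : HeightOneSpectrum (𝓞 L))
    {r d : ℕ} (c : Idx r d → 𝓞 K) (G : Fin r → MvPolynomial (Fin d × Fin r) (𝓞 K)) (j : Fin r)
    (x : Fin d × Fin r → w.adicCompletion L) :
    eval₂ ((algebraMap L (w.adicCompletion L)).comp (algebraMap (𝓞 K) L)) x (form c G j) =
      ∑ i : Fin d, phi K w (c none) ^ (i : ℕ) *
        fval (fun γ => phi K w (c (some (i, j, γ)))) (fun k => x (i, k)) +
      eval x (map (phi K w) (G j)) := by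
  rw [eval_map]
  change eval₂Hom (phi K w) x (form c G j) = _ + eval₂Hom (phi K w) x (G j)
  rw [form, map_add]
  congr 1
  simp only [block, map_sum, map_mul, map_prod, map_pow, coe_eval₂Hom, eval₂_C, eval₂_X, fval]

lemma coprime_of_odd {r d : ℕ} (hrd : r * (d - 1) = 3) {e : ℕ} (he : Odd e) :
    Nat.Coprime e d := by
  have hd : d = 4 ∨ d = 2 := by
    have h1 : d - 1 ∣ 3 := ⟨r, by rw [← hrd]; ring⟩
    have h2 := (Nat.dvd_prime Nat.prime_three).1 h1
    omega
  rcases hd with rfl | rfl
  · exact Nat.Coprime.pow_right 2 (Nat.coprime_two_right.2 he)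
  · exact Nat.coprime_two_right.2 he

lemma noPoint {L : Type} [Field L] [NumberField L] [Algebra K L] {r d : ℕ}
    (hrd : r * (d - 1) = 3) (v : HeightOneSpectrum (𝓞 K)) (w : HeightOneSpectrum (𝓞 L))
    (hw : w.asIdeal.LiesOver v.asIdeal) (c : Idx r d → 𝓞 K) (h1 : c none ∈ v.asIdeal)
    (h2 : c none ∉ v.asIdeal ^ 2)
    (h3 : ∀ i : Fin d, (macM fun j γ => c (some (i, j, γ))).det ∉ v.asIdeal)
    (he : Odd (v.asIdeal.ramificationIdx' w.asIdeal))
    (G : Fin r → MvPolynomial (Fin d × Fin r) (𝓞 K)) (hG : ∀ j, (G j).IsHomogeneous d)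
    (hGc : ∀ j α, (G j).coeff α ∈ v.asIdeal ^ (weight α / d + 1)) :
    NoPointOver L w (form c G) := by
  intro x hx
  obtain ⟨j, hj⟩ := place v w (c none) h1 h2 (fun i j γ => c (some (i, j, γ))) h3
    (coprime_of_odd hrd he) G hG hGc x hx
  refine ⟨j, ?_⟩
  rw [eval_form]
  exact hj

lemma smooth_of {τ : Type} {r d : ℕ} {Δ : MvPolynomial τ ℚ} (c : τ → 𝓞 K)
    (Q : (R : Type) → [CommRing R] → (τ → R) → Fin r → MvPolynomial (Fin d × Fin r) R)
    (hQ : ∀ (R S : Type) [CommRing R] [CommRing S] (φ : R →+* S) (c : τ → R) (j : Fin r),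
      map φ (Q R c j) = Q S (fun o => φ (c o)) j)
    (h : ∀ (k : Type) [Field k] [Algebra ℚ k] (c : τ → k), aeval c Δ ≠ 0 →
      ∀ z : Fin d × Fin r → k, z ≠ 0 → (∀ j, eval z (Q k c j) = 0) →
        ∃ s : Fin r → Fin d × Fin r,
          (Matrix.of fun j l => eval z (pderiv (s l) (Q k c j))).det ≠ 0)
    (hc : aeval (fun o => algebraMap (𝓞 K) (AlgebraicClosure K) (c o)) Δ ≠ 0) :
    Smooth (Q (𝓞 K) c) := by
  intro z hz h0
  have e1 : ∀ (q : MvPolynomial (Fin d × Fin r) (𝓞 K)),
      aeval z q = eval z (map (algebraMap (𝓞 K) (AlgebraicClosure K)) q) := by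
    intro q
    rw [eval_map]
    rfl
  obtain ⟨s, hs⟩ := h (AlgebraicClosure K)
    (fun o => algebraMap (𝓞 K) (AlgebraicClosure K) (c o)) hc z hz (fun j => by
      rw [← hQ, ← e1]
      exact h0 j)
  rw [Fintype.linearIndependent_iff]
  intro g hg
  have h2 : Matrix.vecMul g (Matrix.of fun (j l : Fin r) => eval z (pderiv (s l)
      (Q (AlgebraicClosure K) (fun o => algebraMap (𝓞 K) (AlgebraicClosure K) (c o)) j))) = 0 := by
    funext l
    have h3 := congrFun hg (s l)
    rw [Finset.sum_apply] at h3
    rw [Matrix.vecMul, dotProduct, Pi.zero_apply]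
    rw [Pi.zero_apply] at h3
    rw [← h3]
    refine Finset.sum_congr rfl fun j _ => ?_
    rw [Matrix.of_apply, ← hQ, pderiv_map, Pi.smul_apply, smul_eq_mul, e1]
  have h3 := Matrix.eq_zero_of_vecMul_eq_zero hs h2
  intro j
  exact congrFun h3 j

lemma density_of {ι : Type} [Fintype ι] (E : Set (ι → 𝓞 K))
    (h : ∀ ε : ℝ, 0 < ε → SmallV (Fintype.card ι) (rei '' E) ε) : DensityZero E :=
  ⟨dens E h, fun _ _ ω => dens_box E h ω⟩

lemma weight_lt {r d : ℕ} (hd : 0 < d) (α : Fin d × Fin r →₀ ℕ) (hα : ∑ p, α p = d) :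
    weight α / d + 1 ≤ d := by
  have h1 : weight α ≤ (d - 1) * d := by
    calc weight α ≤ ∑ p : Fin d × Fin r, (d - 1) * α p := by
          refine Finset.sum_le_sum fun p _ => Nat.mul_le_mul_right _ ?_
          have := p.1.2
          omega
      _ = (d - 1) * d := by rw [← Finset.mul_sum, hα]
  have h2 : weight α / d ≤ d - 1 := by
    calc weight α / d ≤ (d - 1) * d / d := Nat.div_le_div_right h1
      _ = d - 1 := Nat.mul_div_cancel _ hd
  omega

/-- the coefficients of a form -/
lemma gform_coeff {R : Type} [CommRing R] {r d : ℕ} (c : GIdx r d → R) (j : Fin r)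
    (α : Fin d × Fin r →₀ ℕ) (hα : ∑ p, α p = d) :
    (gform c j).coeff α = c (j, Mon.of (fun p => α p) hα) := by
  classical
  rw [gform, coeff_sum]
  have h4 : ∀ γ : Exps (Fin d × Fin r) d, coeff α (C (c (j, γ)) *
      ∏ p, (X p : MvPolynomial (Fin d × Fin r) R) ^ γ.1 p) =
      if Finsupp.equivFunOnFinite.symm γ.1 = α then c (j, γ) else 0 := by
    intro γ
    have h5 : C (c (j, γ)) * ∏ p, (X p : MvPolynomial (Fin d × Fin r) R) ^ γ.1 p =
        monomial (Finsupp.equivFunOnFinite.symm γ.1) (c (j, γ)) := by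
      rw [monomial_eq, Finsupp.prod_fintype _ _ (fun _ => pow_zero _)]
      rfl
    rw [h5, coeff_monomial]
  simp only [h4]
  rw [Finset.sum_eq_single (Mon.of (fun p => α p) hα)]
  · have h3 : Finsupp.equivFunOnFinite.symm (Mon.of (fun p => α p) hα).1 = α := by
      ext p
      rfl
    rw [if_pos h3]
  · intro γ _ hγ
    rw [if_neg]
    intro h5
    apply hγ
    apply Subtype.ext
    funext p
    change γ.1 p = α p
    rw [← h5]
    rfl
  · intro h
    exact absurd (Finset.mem_univ _) h

lemma coeff_zero_of_ne {R : Type} [CommRing R] {r d : ℕ} {q : MvPolynomial (Fin d × Fin r) R}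
    (hq : q.IsHomogeneous d) (α : Fin d × Fin r →₀ ℕ) (hα : ¬ ∑ p, α p = d) : q.coeff α = 0 := by
  by_contra h3
  apply hα
  have h4 := hq h3
  rw [Finsupp.weight_apply, Finsupp.sum_fintype _ _ (fun _ => by simp)] at h4
  simpa using h4

omit [NumberField K] in
lemma prod_le (T : Finset (HeightOneSpectrum (𝓞 K))) (d : ℕ) (v : HeightOneSpectrum (𝓞 K))
    (hv : v ∈ T) : ∏ v ∈ T, v.asIdeal ^ d ≤ v.asIdeal ^ d := by
  apply Ideal.le_of_dvd
  exact Finset.dvd_prod_of_mem (fun v : HeightOneSpectrum (𝓞 K) => v.asIdeal ^ d) hv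

lemma part2 (r d : ℕ) (hrd : r * (d - 1) = 3) (hd : 0 < d)
    (T : Finset (HeightOneSpectrum (𝓞 K))) : ∃ I : Ideal (𝓞 K), I ≠ ⊥ ∧
      ∃ c₀ : GIdx r d → 𝓞 K, ∀ c : GIdx r d → 𝓞 K, (∀ o, c o - c₀ o ∈ I) →
        ∀ v ∈ T, ∀ (L : Type) [Field L] [NumberField L] [Algebra K L]
          (w : HeightOneSpectrum (𝓞 L)), w.asIdeal.LiesOver v.asIdeal →
          Odd (v.asIdeal.ramificationIdx' w.asIdeal) → NoPointOver L w (gform c) := by
  classical
  obtain ⟨b, hb⟩ := exists_exact T
  let c1 : Idx r d → 𝓞 K := fun o => match o with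
    | none => b
    | some (_, j, γ) => dia j γ
  have hQ0h : ∀ j, (eqn c1 j).IsHomogeneous d := fun j => eqn_hom c1 j
  refine ⟨∏ v ∈ T, v.asIdeal ^ d, Finset.prod_ne_zero_iff.2 fun v _ => pow_ne_zero _ v.ne_bot,
    fun o => (eqn c1 o.1).coeff (Finsupp.equivFunOnFinite.symm o.2.1), ?_⟩
  intro c hc v hv L _ _ _ w hw he
  have hdet : ∀ i : Fin d, (macM fun (j : Fin r) (γ : Mon (Fin r) d) =>
      c1 (some (i, j, γ))).det ∉ v.asIdeal := by
    intro i
    have h1 : (macM fun (j : Fin r) (γ : Mon (Fin r) d) => c1 (some (i, j, γ))).det = 1 := by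
      change (macM (dia : Fin r → Mon (Fin r) d → 𝓞 K)).det = 1
      rw [Pool.Agent.H85.CY.macM_dia, Matrix.det_one]
    rw [h1]
    exact fun h => v.isPrime.ne_top ((Ideal.eq_top_iff_one _).2 h)
  have hgh : ∀ j, (gform c j).IsHomogeneous d := fun j => Pool.Agent.H85.CY.gen_hom c j
  have h1 : gform c = form c1 (fun j => gform c j - eqn c1 j) := by
    funext j
    have h2 : form c1 (fun j => gform c j - eqn c1 j) j = eqn c1 j + (gform c j - eqn c1 j) := rfl
    rw [h2, add_sub_cancel]
  rw [h1]
  refine noPoint hrd v w hw c1 (hb v hv).1 (hb v hv).2 hdet he _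
    (fun j => (hgh j).sub (hQ0h j)) fun j α => ?_
  by_cases hα : ∑ p, α p = d
  · have h3 : Finsupp.equivFunOnFinite.symm (Mon.of (fun p => α p) hα).1 = α := by
      ext p
      rfl
    have h4 := hc (j, Mon.of (fun p => α p) hα)
    simp only at h4
    rw [h3] at h4
    rw [coeff_sub, gform_coeff c j α hα]
    have h5 := prod_le T d v hv
    exact (Ideal.pow_le_pow_right (I := v.asIdeal) (weight_lt hd α hα)) (h5 h4)
  · rw [coeff_zero_of_ne ((hgh j).sub (hQ0h j)) α hα]
    exact zero_mem _

end proof

/-- Let `K` be a number field and `(r, d) = (1, 4)` or `(3, 2)`, and let `T` be a finite set of primes of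
`K`.  There are an ideal `I ≠ 0` and a vector of coefficients `c₀` such that for all `c` congruent to `c₀`
modulo `I`, all number fields `L` over `K` and all places `w` of `L` of odd ramification index above a prime
in `T` the surface given by the `r` forms of degree `d` with the coefficients `c` has no point over `L_w`.
The vectors of coefficients for which the surface is not smooth have density zero. -/
theorem result (K : Type) [Field K] [NumberField K] (r d : ℕ) (hrd : r * (d - 1) = 3)
    (T : Finset (HeightOneSpectrum (𝓞 K))) : ∃ I : Ideal (𝓞 K), I ≠ ⊥ ∧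
      ∃ c₀ : GIdx r d → 𝓞 K, (∀ c : GIdx r d → 𝓞 K, (∀ o, c o - c₀ o ∈ I) →
        ∀ v ∈ T, ∀ (L : Type) [Field L] [NumberField L] [Algebra K L]
          (w : HeightOneSpectrum (𝓞 L)), w.asIdeal.LiesOver v.asIdeal →
          Odd (v.asIdeal.ramificationIdx' w.asIdeal) → NoPointOver L w (gform c)) ∧
      DensityZero {c : GIdx r d → 𝓞 K | ¬ Smooth (gform c)} := by
  classical
  have hd : 0 < d := by
    rcases Nat.eq_zero_or_pos d with h | h
    · rw [h] at hrd
      omega
    · exact h
  obtain ⟨I, hI, c₀, h⟩ := part2 r d hrd hd T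
  refine ⟨I, hI, c₀, h, ?_⟩
  obtain ⟨Δ, hΔ0, hΔ⟩ := Pool.Agent.H85.CY.smooth_gen r d hd
  refine density_of _ fun ε hε => ?_
  have h2 := Pool.Agent.H85.CY.zero_small (K := K) Δ hΔ0 ε hε
  refine h2.mono (Set.image_mono ?_) le_rfl
  intro c hc
  by_contra h3
  apply hc
  exact smooth_of c (fun R _ c => Pool.Agent.H85.CY.gen c)
    (fun R S _ _ φ c j => Pool.Agent.H85.CY.gen_map φ c j) hΔ h3

end Pool.Agent.Results.MP_ed3816_nt.PositiveProportion
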